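import Mathlib

/-!
# Optimal curvature pinching of Heintze groups of Carnot type

Let `G` be a connected, simply connected Lie group with Lie algebra `𝔤`. A left-invariant Riemannian
metric on `G` is the same as an inner product `B` on `𝔤`. Its Levi-Civita connection maps pairs of
left-invariant vector fields to left-invariant vector fields, so it is a bilinear product `D` on `𝔤`;
it is the only one which is torsion-free, `D x y - D y x = [x, y]`, and metric,
`⟨D x y, z⟩ + ⟨y, D x z⟩ = 0`.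

For a Heintze group of Carnot type the proof that `b / a ≤ 1 / s²` uses only the planes which contain
the unit normal `A₀` of `[𝔤, 𝔤]`. Write `A₀ = c A + X` with `X ∈ [𝔤, 𝔤]`. Then `ad A₀` has an
eigenvector `Y` with eigenvalue `c` on `[𝔤, 𝔤]`, and `⟨R (Y, A₀) A₀, Y⟩ = |D_Y A₀|² - 2 c² |Y|²`,
which is at least `- c² |Y|²`; so `-b ≤ c²`. The adjoint of `ad A₀` on `[𝔤, 𝔤]` has an eigenvector `Z`
with eigenvalue `c s`, and `⟨R (Z, A₀) A₀, Z⟩ = - 3/4 |[A₀, Z]|² - 1/4 c² s² |Z|² ≤ - c² s² |Z|²`; so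
`c² s² ≤ -a`.
-/

set_option autoImplicit false

namespace Pool.Agent.Results.MP_1a0a4b_gt.ExactPinching

variable {𝔤 : Type*} [LieRing 𝔤] [LieAlgebra ℝ 𝔤]

/-- `𝔤` is the Lie algebra of a Heintze group of Carnot type of step `s`:
`𝔤 = ℝ A ⊕ V 1 ⊕ ⋯ ⊕ V s` (with `A ≠ 0`), `[V 1, V i] = V (i + 1)` for `1 ≤ i < s`, `[V 1, V s] = 0`,
`V s ≠ 0`, and `[A, x] = i x` for `x ∈ V i`, `1 ≤ i ≤ s`. (`V i` is used only for `1 ≤ i ≤ s`.) -/
structure HeintzeCarnot (A : 𝔤) (V : ℕ → Submodule ℝ 𝔤) (s : ℕ) : Prop where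
  one_le : 1 ≤ s
  ne_zero : A ≠ 0
  internal : DirectSum.IsInternal
    (fun i : Fin (s + 1) => if (i : ℕ) = 0 then Submodule.span ℝ {A} else V i)
  bracket : ∀ i, 1 ≤ i → i < s →
    Submodule.span ℝ {z | ∃ x ∈ V 1, ∃ y ∈ V i, ⁅x, y⁆ = z} = V (i + 1)
  bracket_top : ∀ x ∈ V 1, ∀ y ∈ V s, ⁅x, y⁆ = 0
  top_ne : V s ≠ ⊥
  grading : ∀ i, 1 ≤ i → i ≤ s → ∀ x ∈ V i, ⁅A, x⁆ = (i : ℝ) • x

/-- `B` is an inner product on `𝔤` (a left-invariant Riemannian metric). -/
structure IsInner (B : LinearMap.BilinForm ℝ 𝔤) : Prop where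
  symm : ∀ x y, B x y = B y x
  pos : ∀ x, x ≠ 0 → 0 < B x x

/-- `D` is the Levi-Civita connection of the left-invariant metric `B`, on left-invariant fields. -/
structure IsLeviCivita (B : LinearMap.BilinForm ℝ 𝔤) (D : 𝔤 →ₗ[ℝ] 𝔤 →ₗ[ℝ] 𝔤) : Prop where
  torsion : ∀ x y, D x y - D y x = ⁅x, y⁆
  metric : ∀ x y z, B (D x y) z + B y (D x z) = 0

/-- The curvature tensor `R(x, y) z = D_x D_y z - D_y D_x z - D_[x, y] z`. -/
def curv (D : 𝔤 →ₗ[ℝ] 𝔤 →ₗ[ℝ] 𝔤) (x y z : 𝔤) : 𝔤 :=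
  D x (D y z) - D y (D x z) - D ⁅x, y⁆ z

/-- The sectional curvature of the plane spanned by `x` and `y`. -/
noncomputable def sec (B : LinearMap.BilinForm ℝ 𝔤) (D : 𝔤 →ₗ[ℝ] 𝔤 →ₗ[ℝ] 𝔤) (x y : 𝔤) : ℝ :=
  B (curv D x y y) x / (B x x * B y y - B x y ^ 2)

/-! ### The structure of the Lie algebra -/

section Alg

variable {A : 𝔤} {V : ℕ → Submodule ℝ 𝔤} {s : ℕ}

/-- the sum of the layers `V j`, `k ≤ j ≤ s` -/
def lay (V : ℕ → Submodule ℝ 𝔤) (s k : ℕ) : Submodule ℝ 𝔤 :=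
  ⨆ j : ℕ, ⨆ _ : k ≤ j ∧ j ≤ s, V j

theorem le_lay {k j : ℕ} (h1 : k ≤ j) (h2 : j ≤ s) : V j ≤ lay V s k :=
  le_iSup₂_of_le j ⟨h1, h2⟩ le_rfl

theorem lay_induction {k : ℕ} {P : 𝔤 → Prop} (h0 : P 0) (hadd : ∀ x y, P x → P y → P (x + y))
    (hV : ∀ j, k ≤ j → j ≤ s → ∀ x ∈ V j, P x) : ∀ x ∈ lay V s k, P x := by
  intro x hx
  refine Submodule.iSup_induction (fun j : ℕ => ⨆ _ : k ≤ j ∧ j ≤ s, V j) (motive := P) hx ?_ h0 hadd
  intro j y hy
  by_cases h : k ≤ j ∧ j ≤ s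
  · rw [iSup_pos h] at hy
    exact hV j h.1 h.2 y hy
  · rw [iSup_neg h] at hy
    rw [(Submodule.mem_bot ℝ).1 hy]
    exact h0

namespace HeintzeCarnot

variable (h : HeintzeCarnot A V s)
include h

/-- the adjoint of `A` -/
theorem eig {i : ℕ} (h1 : 1 ≤ i) (h2 : i ≤ s) :
    V i ≤ Module.End.eigenspace (LieAlgebra.ad ℝ 𝔤 A) (i : ℝ) := by
  intro x hx
  rw [Module.End.mem_eigenspace_iff, LieAlgebra.ad_apply]
  exact h.grading i h1 h2 x hx

theorem top_le : (⊤ : Submodule ℝ 𝔤) ≤ Submodule.span ℝ {A} ⊔ lay V s 1 := by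
  rw [← h.internal.submodule_iSup_eq_top]
  refine iSup_le fun i => ?_
  by_cases hi : (i : ℕ) = 0
  · rw [if_pos hi]
    exact le_sup_left
  · rw [if_neg hi]
    exact le_sup_of_le_right (le_lay (by omega) (by omega))

theorem exists_decomp (z : 𝔤) : ∃ (α : ℝ) (x : 𝔤), x ∈ lay V s 1 ∧ z = α • A + x := by
  have hz : z ∈ Submodule.span ℝ {A} ⊔ lay V s 1 := h.top_le Submodule.mem_top
  obtain ⟨y, hy, x, hx, rfl⟩ := Submodule.mem_sup.1 hz
  obtain ⟨α, rfl⟩ := Submodule.mem_span_singleton.1 hy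
  exact ⟨α, x, hx, rfl⟩

/-- an eigenvector of `ad A` with eigenvalue `m ≥ 1` lies in `V m` if `m ≤ s`, and is zero
otherwise -/
theorem of_eig {m : ℕ} (hm : 1 ≤ m) {z : 𝔤} (hz : ⁅A, z⁆ = (m : ℝ) • z) :
    (m ≤ s → z ∈ V m) ∧ (s < m → z = 0) := by
  classical
  set T := LieAlgebra.ad ℝ 𝔤 A with hT
  have hW : ∀ i : Fin (s + 1), (if (i : ℕ) = 0 then Submodule.span ℝ {A} else V i) ≤
      T.eigenspace ((i : ℕ) : ℝ) := by
    intro i
    by_cases hi : (i : ℕ) = 0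
    · rw [if_pos hi, hi, Submodule.span_singleton_le_iff_mem, Module.End.mem_eigenspace_iff]
      simp [hT]
    · rw [if_neg hi]
      exact h.eig (by omega) (by omega)
  have hzm : z ∈ T.eigenspace (m : ℝ) := by
    rw [Module.End.mem_eigenspace_iff]
    exact hz
  have hind := Module.End.eigenspaces_iSupIndep T
  have hz' : z ∈ (⊤ : Submodule ℝ 𝔤) := Submodule.mem_top
  rw [← h.internal.submodule_iSup_eq_top] at hz'
  constructor
  · intro hms
    -- split off the component with index m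
    have hle : (⨆ i : Fin (s + 1), (if (i : ℕ) = 0 then Submodule.span ℝ {A} else V i)) ≤
        V m ⊔ ⨆ (μ : ℝ) (_ : μ ≠ (m : ℝ)), T.eigenspace μ := by
      refine iSup_le fun i => ?_
      by_cases hi : (i : ℕ) = m
      · rw [if_neg (by omega), hi]
        exact le_sup_left
      · refine le_sup_of_le_right ((hW i).trans ?_)
        exact le_iSup₂_of_le ((i : ℕ) : ℝ) (by exact_mod_cast hi) le_rfl
    obtain ⟨u, hu, w, hw, huw⟩ := Submodule.mem_sup.1 (hle hz')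
    have hwm : w ∈ T.eigenspace (m : ℝ) := by
      have : w = z - u := by rw [← huw]; abel
      rw [this]
      exact Submodule.sub_mem _ hzm (h.eig hm hms hu)
    have hw0 : w = 0 := by
      have := Submodule.disjoint_def.1 (hind (m : ℝ)) w hwm hw
      exact this
    rw [← huw, hw0, add_zero]
    exact hu
  · intro hms
    have hle : (⨆ i : Fin (s + 1), (if (i : ℕ) = 0 then Submodule.span ℝ {A} else V i)) ≤
        ⨆ (μ : ℝ) (_ : μ ≠ (m : ℝ)), T.eigenspace μ := by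
      refine iSup_le fun i => (hW i).trans ?_
      exact le_iSup₂_of_le ((i : ℕ) : ℝ) (by
        have : (i : ℕ) ≠ m := by omega
        exact_mod_cast this) le_rfl
    exact Submodule.disjoint_def.1 (hind (m : ℝ)) z hzm (hle hz')

/-- `A` is not in the sum of the layers -/
theorem not_mem : A ∉ lay V s 1 := by
  intro hA
  classical
  set T := LieAlgebra.ad ℝ 𝔤 A with hT
  have hle : lay V s 1 ≤ ⨆ (μ : ℝ) (_ : μ ≠ (0 : ℝ)), T.eigenspace μ := by
    refine iSup_le fun j => iSup_le fun hj => (h.eig hj.1 hj.2).trans ?_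
    exact le_iSup₂_of_le (j : ℝ) (by
      have : j ≠ 0 := by omega
      exact_mod_cast this) le_rfl
  have h0 : A ∈ T.eigenspace 0 := by
    rw [Module.End.mem_eigenspace_iff]
    simp [hT]
  exact h.ne_zero (Submodule.disjoint_def.1 (Module.End.eigenspaces_iSupIndep T 0) A h0 (hle hA))

theorem bracket_layers {i j : ℕ} (hi : 1 ≤ i) (hi' : i ≤ s) (hj : 1 ≤ j) (hj' : j ≤ s)
    {x y : 𝔤} (hx : x ∈ V i) (hy : y ∈ V j) :
    (i + j ≤ s → ⁅x, y⁆ ∈ V (i + j)) ∧ (s < i + j → ⁅x, y⁆ = 0) := by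
  refine h.of_eig (by omega) ?_
  rw [leibniz_lie, h.grading i hi hi' x hx, h.grading j hj hj' y hy, smul_lie, lie_smul,
    ← add_smul]
  push_cast
  rfl

/-- `[N, N] ⊆ N'`, the sum of the layers of index at least two -/
theorem bracket_mem {x y : 𝔤} (hx : x ∈ lay V s 1) (hy : y ∈ lay V s 1) : ⁅x, y⁆ ∈ lay V s 2 := by
  revert y
  refine lay_induction (P := fun x => ∀ {y : 𝔤}, y ∈ lay V s 1 → ⁅x, y⁆ ∈ lay V s 2) ?_ ?_ ?_ x hx
  · intro y _
    rw [zero_lie]
    exact Submodule.zero_mem _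
  · intro a b ha hb y hy
    rw [add_lie]
    exact Submodule.add_mem _ (ha hy) (hb hy)
  · intro i hi hi' a ha y hy
    refine lay_induction (P := fun y => ⁅a, y⁆ ∈ lay V s 2) ?_ ?_ ?_ y hy
    · rw [lie_zero]
      exact Submodule.zero_mem _
    · intro b c hb hc
      rw [lie_add]
      exact Submodule.add_mem _ hb hc
    · intro j hj hj' b hb
      by_cases hs : i + j ≤ s
      · exact le_lay (by omega) hs ((h.bracket_layers hi hi' hj hj' ha hb).1 hs)
      · rw [(h.bracket_layers hi hi' hj hj' ha hb).2 (by omega)]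
        exact Submodule.zero_mem _

/-- `V s` is central in `N` -/
theorem bracket_central {x y : 𝔤} (hx : x ∈ lay V s 1) (hy : y ∈ V s) : ⁅x, y⁆ = 0 := by
  refine lay_induction (P := fun x => ⁅x, y⁆ = 0) (zero_lie _) ?_ ?_ x hx
  · intro a b ha hb
    rw [add_lie, ha, hb, add_zero]
  · intro i hi hi' a ha
    exact (h.bracket_layers hi hi' h.one_le le_rfl ha hy).2 (by omega)

/-- `[A, y] - y ∈ N'` for `y ∈ N` -/
theorem grading_mem {y : 𝔤} (hy : y ∈ lay V s 1) : ⁅A, y⁆ - y ∈ lay V s 2 := by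
  refine lay_induction (P := fun y => ⁅A, y⁆ - y ∈ lay V s 2) ?_ ?_ ?_ y hy
  · simp
  · intro a b ha hb
    have : ⁅A, a + b⁆ - (a + b) = (⁅A, a⁆ - a) + (⁅A, b⁆ - b) := by
      rw [lie_add]; abel
    rw [this]
    exact Submodule.add_mem _ ha hb
  · intro j hj hj' b hb
    rw [h.grading j hj hj' b hb]
    by_cases hj1 : j = 1
    · subst hj1
      simp
    · have : ((j : ℝ) • b - b) = ((j : ℝ) - 1) • b := by rw [sub_smul, one_smul]
      rw [this]
      exact Submodule.smul_mem _ _ (le_lay (by omega) hj' hb)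

theorem lay_two_le : lay V s 2 ≤ lay V s 1 :=
  iSup_le fun j => iSup_le fun hj => le_lay (by omega) hj.2

/-- the first layer is not zero -/
theorem one_ne : V 1 ≠ ⊥ := by
  intro h1
  have hall : ∀ i, 1 ≤ i → i ≤ s → V i = ⊥ := by
    intro i hi
    induction i, hi using Nat.le_induction with
    | base => exact fun _ => h1
    | succ i hi ih =>
      intro his
      rw [← h.bracket i hi (by omega), Submodule.span_eq_bot]
      rintro z ⟨x, hx, y, _, rfl⟩
      rw [h1, Submodule.mem_bot] at hx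
      rw [hx, zero_lie]
  exact h.top_ne (hall s h.one_le le_rfl)

/-- there is a vector of `N` which is not in `N'` -/
theorem exists_not_mem : ∃ y ∈ lay V s 1, y ∉ lay V s 2 := by
  obtain ⟨y, hy, hy0⟩ := Submodule.exists_mem_ne_zero_of_ne_bot h.one_ne
  refine ⟨y, le_lay le_rfl h.one_le hy, fun hy2 => hy0 ?_⟩
  classical
  set T := LieAlgebra.ad ℝ 𝔤 A with hT
  have hle : lay V s 2 ≤ ⨆ (μ : ℝ) (_ : μ ≠ (1 : ℝ)), T.eigenspace μ := by
    refine iSup_le fun j => iSup_le fun hj => (h.eig (by omega) hj.2).trans ?_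
    exact le_iSup₂_of_le (j : ℝ) (by
      have : j ≠ 1 := by omega
      exact_mod_cast this) le_rfl
  have h1 : y ∈ T.eigenspace 1 := by
    have := h.eig le_rfl h.one_le hy
    rwa [Nat.cast_one] at this
  exact Submodule.disjoint_def.1 (Module.End.eigenspaces_iSupIndep T 1) y h1 (hle hy2)

/-- `[𝔤, 𝔤] ⊆ N` -/
theorem derived (x y : 𝔤) : ⁅x, y⁆ ∈ lay V s 1 := by
  obtain ⟨α, x', hx, rfl⟩ := h.exists_decomp x
  obtain ⟨β, y', hy, rfl⟩ := h.exists_decomp y
  have hA : ∀ {z : 𝔤}, z ∈ lay V s 1 → ⁅A, z⁆ ∈ lay V s 1 := by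
    intro z hz
    have := Submodule.add_mem _ (h.lay_two_le (h.grading_mem hz)) hz
    simpa using this
  have hxA : ⁅x', A⁆ ∈ lay V s 1 := by
    rw [← lie_skew]
    exact Submodule.neg_mem _ (hA hx)
  rw [add_lie, lie_add, lie_add, smul_lie, lie_smul, lie_self, smul_zero, smul_zero, zero_add,
    smul_lie, lie_smul]
  exact Submodule.add_mem _ (Submodule.smul_mem _ _ (hA hy))
    (Submodule.add_mem _ (Submodule.smul_mem _ _ hxA) (h.lay_two_le (h.bracket_mem hx hy)))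

end HeintzeCarnot

end Alg

/-! ### The curvature of the planes containing the normal of `[𝔤, 𝔤]` -/

section Curv

variable {B : LinearMap.BilinForm ℝ 𝔤} {D : 𝔤 →ₗ[ℝ] 𝔤 →ₗ[ℝ] 𝔤}

theorem koszul (hB : IsInner B) (hD : IsLeviCivita B D) (x y z : 𝔤) :
    2 * B (D x y) z = B ⁅x, y⁆ z - B ⁅y, z⁆ x + B ⁅z, x⁆ y := by
  have t := fun a b => hD.torsion a b
  have m := fun a b c => hD.metric a b c
  rw [← t x y, ← t y z, ← t z x]
  simp only [map_sub, LinearMap.sub_apply]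
  have m1 := m x y z
  have m2 := m y z x
  have m3 := m z x y
  have s1 := hB.symm y (D x z)
  have s2 := hB.symm z (D y x)
  have s3 := hB.symm x (D z y)
  linarith

theorem inner_self_zero (hB : IsInner B) {x : 𝔤} (hx : ∀ z, B x z = 0) : x = 0 := by
  by_contra h
  exact absurd (hx x) (hB.pos x h).ne'

theorem nonneg (hB : IsInner B) (x : 𝔤) : 0 ≤ B x x := by
  by_cases h : x = 0
  · subst h; simp
  · exact (hB.pos x h).le

theorem cauchy (hB : IsInner B) (x y : 𝔤) : B x y ^ 2 ≤ B x x * B y y := by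
  by_cases hy : y = 0
  · subst hy; simp
  · have hp := hB.pos y hy
    have h1 := nonneg hB (B y y • x - B x y • y)
    simp only [map_sub, map_smul, LinearMap.sub_apply, LinearMap.smul_apply, smul_eq_mul] at h1
    rw [hB.symm y x] at h1
    have h2 : 0 ≤ B y y * (B x x * B y y - B x y ^ 2) := by nlinarith
    have h3 := nonneg_of_mul_nonneg_right h2 hp
    linarith

variable {a₀ : 𝔤}

/-- `D_{a₀} a₀ = 0` if `a₀` is normal to `[𝔤, 𝔤]` -/
theorem geodesic (hB : IsInner B) (hD : IsLeviCivita B D) (ha : ∀ x y : 𝔤, B ⁅x, y⁆ a₀ = 0) :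
    D a₀ a₀ = 0 := by
  refine inner_self_zero hB fun z => ?_
  have h := koszul hB hD a₀ a₀ z
  rw [lie_self, ha, ha] at h
  simp only [map_zero, LinearMap.zero_apply] at h
  linarith

/-- the shape operator of the cosets of `[G, G]` -/
theorem shape (hB : IsInner B) (hD : IsLeviCivita B D) (ha : ∀ x y : 𝔤, B ⁅x, y⁆ a₀ = 0)
    (y w : 𝔤) : 2 * B (D y a₀) w = -(B ⁅a₀, y⁆ w + B ⁅a₀, w⁆ y) := by
  have h := koszul hB hD y a₀ w
  rw [ha] at h
  rw [h, ← lie_skew a₀ y]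
  simp only [map_neg, LinearMap.neg_apply]
  ring

theorem curv_normal (hB : IsInner B) (hD : IsLeviCivita B D) (ha : ∀ x y : 𝔤, B ⁅x, y⁆ a₀ = 0)
    (y : 𝔤) : B (curv D y a₀ a₀) y = B (D y a₀) (D y a₀) + 2 * B (D y a₀) ⁅a₀, y⁆ := by
  have h0 := geodesic hB hD ha
  have h1 := hD.metric a₀ (D y a₀) y
  have h2 : D a₀ y = D y a₀ + ⁅a₀, y⁆ := by rw [← hD.torsion a₀ y]; abel
  have e : ⁅y, a₀⁆ = -⁅a₀, y⁆ := (lie_skew y a₀).symm
  rw [h2, map_add] at h1
  have h3 := shape hB hD ha ⁅a₀, y⁆ y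
  have h4 := shape hB hD ha y ⁅a₀, y⁆
  have h5 : curv D y a₀ a₀ = D ⁅a₀, y⁆ a₀ - D a₀ (D y a₀) := by
    simp only [curv, h0, e, map_zero, map_neg, LinearMap.neg_apply]
    abel
  rw [h5]
  simp only [map_sub, LinearMap.sub_apply]
  linarith

/-- lower bound for an eigenvector of `ad a₀` -/
theorem curv_eig (hB : IsInner B) (hD : IsLeviCivita B D) (ha : ∀ x y : 𝔤, B ⁅x, y⁆ a₀ = 0)
    {y : 𝔤} {c : ℝ} (hy : y ≠ 0) (h : ⁅a₀, y⁆ = c • y) :
    -(c ^ 2 * B y y) ≤ B (curv D y a₀ a₀) y := by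
  have h1 := shape hB hD ha y y
  have h2 := cauchy hB (D y a₀) y
  rw [curv_normal hB hD ha, h]
  rw [h] at h1
  simp only [map_smul, LinearMap.smul_apply, smul_eq_mul] at h1 ⊢
  have h3 : B (D y a₀) y = -(c * B y y) := by linarith
  rw [h3] at h2 ⊢
  have hp := hB.pos y hy
  have h4 : B y y * (c ^ 2 * B y y) ≤ B y y * B (D y a₀) (D y a₀) := by nlinarith
  have h5 := le_of_mul_le_mul_left h4 hp
  linarith

/-- upper bound for an eigenvector of the adjoint of `ad a₀` on the hyperplane `N` normal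
to `a₀` -/
theorem curv_coeig (hB : IsInner B) (hD : IsLeviCivita B D) (ha : ∀ x y : 𝔤, B ⁅x, y⁆ a₀ = 0)
    {N : Submodule ℝ 𝔤} (hN : ∀ x ∈ N, B x a₀ = 0) (hdec : ∀ w : 𝔤, ∃ (α : ℝ) (x : 𝔤), x ∈ N ∧
      w = α • a₀ + x)
    {z : 𝔤} {c : ℝ} (hzN : z ∈ N) (hz : z ≠ 0) (h : ∀ w ∈ N, B ⁅a₀, w⁆ z = c * B w z) :
    B (curv D z a₀ a₀) z ≤ -(c ^ 2 * B z z) := by
  set p := ⁅a₀, z⁆ with hp
  have hU : (2 : ℝ) • D z a₀ = -(p + c • z) := by
    have : (2 : ℝ) • D z a₀ + (p + c • z) = 0 := by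
      refine inner_self_zero hB fun w => ?_
      obtain ⟨α, x, hx, rfl⟩ := hdec w
      have s1 := shape hB hD ha z a₀
      have s2 := shape hB hD ha z x
      rw [lie_self, ha] at s1
      rw [h x hx, ← hp] at s2
      have s3 : B p a₀ = 0 := ha _ _
      have s4 : B z a₀ = 0 := hN z hzN
      have s5 := hB.symm x z
      simp only [map_add, map_smul, LinearMap.add_apply, LinearMap.smul_apply, smul_eq_mul,
        map_zero, LinearMap.zero_apply] at s1 s2 ⊢
      rw [s3, s4]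
      rw [s5] at s2
      have s6 : B (D z a₀) a₀ = 0 := by linarith
      rw [s6]
      linarith
    exact eq_neg_of_add_eq_zero_left this
  have h1 : B p z = c * B z z := h z hzN
  have h1' : B z p = c * B z z := by rw [hB.symm]; exact h1
  have h2 := cauchy hB p z
  have h3 : 4 * B (D z a₀) (D z a₀) = B p p + 2 * c * (c * B z z) + c ^ 2 * B z z := by
    have e1 : 4 * B (D z a₀) (D z a₀) = B ((2 : ℝ) • D z a₀) ((2 : ℝ) • D z a₀) := by
      simp only [map_smul, LinearMap.smul_apply, smul_eq_mul]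
      ring
    rw [e1, hU]
    simp only [map_neg, map_add, map_smul, LinearMap.neg_apply, LinearMap.add_apply,
      LinearMap.smul_apply, smul_eq_mul, h1, h1']
    ring
  have h4 : 2 * B (D z a₀) p = -(B p p + c * (c * B z z)) := by
    have e1 : 2 * B (D z a₀) p = B ((2 : ℝ) • D z a₀) p := by
      simp only [map_smul, LinearMap.smul_apply, smul_eq_mul]
    rw [e1, hU]
    simp only [map_neg, map_add, map_smul, LinearMap.neg_apply, LinearMap.add_apply,
      LinearMap.smul_apply, smul_eq_mul, h1']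
  rw [curv_normal hB hD ha, ← hp, h4]
  rw [h1] at h2
  have hpz := hB.pos z hz
  have h5 : B z z * (c ^ 2 * B z z) ≤ B z z * B p p := by nlinarith
  have h6 := le_of_mul_le_mul_left h5 hpz
  linarith

/-- a nonzero vector orthogonal to a subspace of smaller dimension -/
theorem exists_normal [FiniteDimensional ℝ 𝔤] (B : LinearMap.BilinForm ℝ 𝔤)
    {U W : Submodule ℝ 𝔤} (h : Module.finrank ℝ U < Module.finrank ℝ W) :
    ∃ z ∈ W, z ≠ 0 ∧ ∀ x ∈ U, B x z = 0 := by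
  let φ : W →ₗ[ℝ] Module.Dual ℝ U := (B.flip.compl₁₂ W.subtype U.subtype)
  have hφ : ¬ Function.Injective φ := by
    intro hi
    have := LinearMap.finrank_le_finrank_of_injective hi
    rw [Subspace.dual_finrank_eq] at this
    omega
  rw [← LinearMap.ker_eq_bot] at hφ
  obtain ⟨z, hz, hz0⟩ := Submodule.exists_mem_ne_zero_of_ne_bot hφ
  refine ⟨z, z.2, by simpa using hz0, fun x hx => ?_⟩
  have := LinearMap.congr_fun (LinearMap.mem_ker.1 hz) ⟨x, hx⟩
  simpa [φ] using this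

end Curv

/-- **Heintze groups of Carnot type are not better than `1/s²`-pinched.** Let `𝔤` be the Lie algebra
of a Heintze group of Carnot type `G`, `s` the step of `[G, G]`. If all sectional curvatures of a
left-invariant Riemannian metric `B` on `G` (with Levi-Civita connection `D`) lie in `[a, b]`, where
`a ≤ b < 0`, then `b / a ≤ 1 / s²`. -/
theorem result {𝔤 : Type*} [LieRing 𝔤] [LieAlgebra ℝ 𝔤] [FiniteDimensional ℝ 𝔤]
    (A : 𝔤) (V : ℕ → Submodule ℝ 𝔤) (s : ℕ) (h : HeintzeCarnot A V s)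
    (B : LinearMap.BilinForm ℝ 𝔤) (hB : IsInner B)
    (D : 𝔤 →ₗ[ℝ] 𝔤 →ₗ[ℝ] 𝔤) (hD : IsLeviCivita B D)
    (a b : ℝ) (hab : a ≤ b) (hb : b < 0)
    (hK : ∀ x y : 𝔤, LinearIndependent ℝ ![x, y] → a ≤ sec B D x y ∧ sec B D x y ≤ b) :
    b / a ≤ 1 / (s : ℝ) ^ 2 := by
  -- the normal of `N = [𝔤, 𝔤]`
  set N := lay V s 1 with hN
  have hNtop : Module.finrank ℝ N < Module.finrank ℝ (⊤ : Submodule ℝ 𝔤) := by
    refine Submodule.finrank_lt_finrank_of_lt (lt_top_iff_ne_top.2 fun h1 => h.not_mem ?_)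
    rw [← hN, h1]
    exact Submodule.mem_top
  obtain ⟨a₀, -, ha0, haN⟩ := exists_normal B hNtop
  have ha : ∀ x y : 𝔤, B ⁅x, y⁆ a₀ = 0 := fun x y => haN _ (h.derived x y)
  obtain ⟨c, X, hX, hcX⟩ := h.exists_decomp a₀
  have hc : c ≠ 0 := by
    rintro rfl
    have h1 : a₀ ∈ N := by rw [hcX, zero_smul, zero_add]; exact hX
    exact (hB.pos a₀ ha0).ne' (haN a₀ h1)
  have hρ := hB.pos a₀ ha0
  have hdec : ∀ w : 𝔤, ∃ (α : ℝ) (x : 𝔤), x ∈ N ∧ w = α • a₀ + x := by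
    intro w
    obtain ⟨α, x, hx, rfl⟩ := h.exists_decomp w
    refine ⟨α / c, x - (α / c) • X, Submodule.sub_mem _ hx (Submodule.smul_mem _ _ hX), ?_⟩
    rw [hcX, smul_add, smul_smul, div_mul_cancel₀ _ hc]
    abel
  have hli : ∀ y ∈ N, y ≠ 0 → LinearIndependent ℝ ![y, a₀] := by
    intro y hy hy0
    rw [LinearIndependent.pair_iff]
    intro α β hαβ
    have h1 : B (α • y + β • a₀) a₀ = 0 := by rw [hαβ]; simp
    simp only [map_add, map_smul, LinearMap.add_apply, LinearMap.smul_apply, smul_eq_mul,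
      haN y hy, mul_zero, zero_add] at h1
    have hβ : β = 0 := (mul_eq_zero.1 h1).resolve_right hρ.ne'
    subst hβ
    rw [zero_smul, add_zero] at hαβ
    exact ⟨(smul_eq_zero.1 hαβ).resolve_right hy0, rfl⟩
  have hsec : ∀ y ∈ N, y ≠ 0 → a * (B y y * B a₀ a₀) ≤ B (curv D y a₀ a₀) y ∧
      B (curv D y a₀ a₀) y ≤ b * (B y y * B a₀ a₀) := by
    intro y hy hy0
    have h1 := hK y a₀ (hli y hy hy0)
    have hp : 0 < B y y * B a₀ a₀ := mul_pos (hB.pos y hy0) hρ
    rw [sec, haN y hy, zero_pow two_ne_zero, sub_zero, le_div_iff₀ hp, div_le_iff₀ hp] at h1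
    exact h1
  -- the operator `ad a₀` on `N`
  have hmap : ∀ y ∈ N, ⁅a₀, y⁆ ∈ N := fun y _ => h.derived _ _
  have hmap' : ∀ y ∈ N, ⁅a₀, y⁆ - c • y ∈ lay V s 2 := by
    intro y hy
    have e : ⁅a₀, y⁆ - c • y = c • (⁅A, y⁆ - y) + ⁅X, y⁆ := by
      rw [hcX, add_lie, smul_lie, smul_sub]
      abel
    rw [e]
    exact Submodule.add_mem _ (Submodule.smul_mem _ _ (h.grading_mem hy)) (h.bracket_mem hX hy)
  -- an eigenvector with eigenvalue `c`
  obtain ⟨y, hyN, hy0, hy⟩ : ∃ y ∈ N, y ≠ 0 ∧ ⁅a₀, y⁆ = c • y := by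
    let T : N →ₗ[ℝ] N := (LieAlgebra.ad ℝ 𝔤 a₀ - c • LinearMap.id).restrict (by
      intro y hy
      exact Submodule.sub_mem _ (hmap y hy) (Submodule.smul_mem _ _ hy))
    have hT : ∀ y : N, (T y : 𝔤) = ⁅a₀, (y : 𝔤)⁆ - c • (y : 𝔤) := fun y => rfl
    have hns : ¬ Function.Surjective T := by
      intro hs
      obtain ⟨w, hw, hw2⟩ := h.exists_not_mem
      obtain ⟨y, hy⟩ := hs ⟨w, hw⟩
      apply hw2
      have : (T y : 𝔤) = w := by rw [hy]
      rw [← this, hT]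
      exact hmap' y y.2
    rw [← LinearMap.injective_iff_surjective, ← LinearMap.ker_eq_bot] at hns
    obtain ⟨y, hy, hy0⟩ := Submodule.exists_mem_ne_zero_of_ne_bot hns
    refine ⟨y, y.2, by simpa using hy0, ?_⟩
    have h1 : (T y : 𝔤) = 0 := by rw [LinearMap.mem_ker.1 hy]; rfl
    rw [hT] at h1
    exact sub_eq_zero.1 h1
  -- an eigenvector of the adjoint with eigenvalue `c s`
  obtain ⟨z, hzN, hz0, hz⟩ : ∃ z ∈ N, z ≠ 0 ∧ ∀ w ∈ N, B ⁅a₀, w⁆ z = (c * s) * B w z := by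
    let T : N →ₗ[ℝ] N := (LieAlgebra.ad ℝ 𝔤 a₀ - (c * s) • LinearMap.id).restrict (by
      intro y hy
      exact Submodule.sub_mem _ (hmap y hy) (Submodule.smul_mem _ _ hy))
    have hT : ∀ y : N, (T y : 𝔤) = ⁅a₀, (y : 𝔤)⁆ - (c * s) • (y : 𝔤) := fun y => rfl
    have hni : ¬ Function.Injective T := by
      intro hi
      obtain ⟨v, hv, hv0⟩ := Submodule.exists_mem_ne_zero_of_ne_bot h.top_ne
      have hvN : v ∈ N := le_lay h.one_le le_rfl hv
      have h1 : T ⟨v, hvN⟩ = 0 := by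
        apply Subtype.ext
        rw [hT]
        change ⁅a₀, v⁆ - (c * s) • v = 0
        rw [hcX, add_lie, h.bracket_central hX hv, add_zero, smul_lie,
          h.grading s h.one_le le_rfl v hv, smul_smul, sub_self]
      have h2 : (⟨v, hvN⟩ : N) = 0 := hi (by rw [h1, map_zero])
      exact hv0 (by simpa using congrArg Subtype.val h2)
    rw [LinearMap.injective_iff_surjective] at hni
    have hr : LinearMap.range T ≠ ⊤ := fun h1 => hni (LinearMap.range_eq_top.1 h1)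
    have hlt : (LinearMap.range T).map N.subtype < N := by
      refine lt_of_le_of_ne (Submodule.map_subtype_le _ _) fun h1 => hr ?_
      rw [eq_top_iff]
      intro w _
      have hw : (w : 𝔤) ∈ (LinearMap.range T).map N.subtype := by rw [h1]; exact w.2
      obtain ⟨w', hw', he⟩ := Submodule.mem_map.1 hw
      have : w' = w := Subtype.ext he
      rwa [← this]
    obtain ⟨z, hzN, hz0, hz⟩ := exists_normal B (Submodule.finrank_lt_finrank_of_lt hlt)
    refine ⟨z, hzN, hz0, fun w hw => ?_⟩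
    have h1 := hz (T ⟨w, hw⟩) (Submodule.mem_map_of_mem (f := N.subtype)
      (LinearMap.mem_range_self T ⟨w, hw⟩))
    rw [hT] at h1
    simp only [map_sub, map_smul, LinearMap.sub_apply, LinearMap.smul_apply, smul_eq_mul] at h1
    linarith
  have hlow := curv_eig hB hD ha hy0 hy
  have hup := curv_coeig hB hD ha haN hdec hzN hz0 hz
  have k1 := (hsec y hyN hy0).2
  have k2 := (hsec z hzN hz0).1
  have hpy := hB.pos y hy0
  have hpz := hB.pos z hz0
  -- `-b ρ ≤ c²`, `c² s² ≤ -a ρ`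
  have e1 : -b * B a₀ a₀ ≤ c ^ 2 := by
    have : B y y * (-b * B a₀ a₀) ≤ B y y * c ^ 2 := by nlinarith
    exact le_of_mul_le_mul_left this hpy
  have e2 : (c * s) ^ 2 ≤ -a * B a₀ a₀ := by
    have : B z z * (c * s) ^ 2 ≤ B z z * (-a * B a₀ a₀) := by nlinarith
    exact le_of_mul_le_mul_left this hpz
  have hs : (0 : ℝ) < (s : ℝ) ^ 2 := by
    have : 0 < s := h.one_le
    positivity
  have ha' : a < 0 := lt_of_le_of_lt hab hb
  have e3 : B a₀ a₀ * ((s : ℝ) ^ 2 * (-b)) ≤ B a₀ a₀ * (-a) := by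
    have : (s : ℝ) ^ 2 * (-b * B a₀ a₀) ≤ (s : ℝ) ^ 2 * c ^ 2 :=
      mul_le_mul_of_nonneg_left e1 hs.le
    nlinarith
  have e4 := le_of_mul_le_mul_left e3 hρ
  rw [show b / a = (-b) / (-a) by rw [neg_div_neg_eq], div_le_div_iff₀ (by linarith) hs]
  linarith

/-- Sanity check: the Levi-Civita connection exists. -/
theorem exists_leviCivita [FiniteDimensional ℝ 𝔤] (B : LinearMap.BilinForm ℝ 𝔤) (hB : IsInner B) :
    ∃ D : 𝔤 →ₗ[ℝ] 𝔤 →ₗ[ℝ] 𝔤, IsLeviCivita B D := by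
  have hinj : Function.Injective B := by
    rw [← LinearMap.ker_eq_bot, Submodule.eq_bot_iff]
    intro x hx
    exact inner_self_zero hB fun z => by rw [LinearMap.mem_ker.1 hx]; rfl
  let e : 𝔤 ≃ₗ[ℝ] Module.Dual ℝ 𝔤 := LinearEquiv.ofInjectiveOfFinrankEq B hinj
    (Subspace.dual_finrank_eq).symm
  have he : ∀ φ z, B (e.symm φ) z = φ z := by
    intro φ z
    have : B (e.symm φ) = φ := e.apply_symm_apply φ
    rw [this]
  let K : 𝔤 →ₗ[ℝ] 𝔤 →ₗ[ℝ] Module.Dual ℝ 𝔤 := LinearMap.mk₂ ℝ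
    (fun x y => (1 / 2 : ℝ) • (B ⁅x, y⁆ - (B.flip x).comp (LieAlgebra.ad ℝ 𝔤 y) -
      (B.flip y).comp (LieAlgebra.ad ℝ 𝔤 x)))
    (fun x x' y => by ext z; simp; ring) (fun c x y => by ext z; simp; ring)
    (fun x y y' => by ext z; simp; ring) (fun c x y => by ext z; simp; ring)
  have hKf : ∀ x y z, K x y z = 1 / 2 * (B ⁅x, y⁆ z - B ⁅y, z⁆ x - B ⁅x, z⁆ y) := by
    intro x y z
    simp [K]
  refine ⟨K.compr₂ e.symm.toLinearMap, ?_, ?_⟩
  · intro x y
    refine sub_eq_zero.1 (inner_self_zero hB fun z => ?_)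
    have h1 : B ((K.compr₂ e.symm.toLinearMap) x y) z = K x y z := he _ _
    have h2 : B ((K.compr₂ e.symm.toLinearMap) y x) z = K y x z := he _ _
    rw [map_sub, map_sub, LinearMap.sub_apply, LinearMap.sub_apply, h1, h2, hKf, hKf,
      ← lie_skew x y]
    simp only [map_neg, LinearMap.neg_apply]
    ring
  · intro x y z
    have h1 : B ((K.compr₂ e.symm.toLinearMap) x y) z = K x y z := he _ _
    have h2 : B ((K.compr₂ e.symm.toLinearMap) x z) y = K x z y := he _ _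
    rw [hB.symm y, h1, h2, hKf, hKf, ← lie_skew z y]
    simp only [map_neg, LinearMap.neg_apply]
    ring

end Pool.Agent.Results.MP_1a0a4b_gt.ExactPinching
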